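import Pool.Agent.Q84.SV1

set_option autoImplicit false

/-!
# Vectors of consecutive gaps which are limit vectors for several normalisations and residue classes at once

Let `f(x) = log x (log₂ x)² log₄ x / (log₃ x)²`, and call `F` a scale function if `log X ≤ F X ≤ f X` for all
large `X` and `F y / F X → 1` uniformly for `X ≤ y ≤ 4 X` (`X → ∞`). A vector `v ∈ ℝ^k` is a limit vector for
`F` and the class `a` modulo `q` if for every `ε > 0` there are infinitely many blocks `p_n, …, p_(n+k)` of
consecutive primes, all `≡ a (mod q)`, whose gaps divided by `F p_n` are within `ε` of `v_1, …, v_k`.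

Let `k ≥ 1` and `r` be given. There is `c > 0` depending on `k` and `r` ONLY such that for all scale functions
`F_1, …, F_r`, squarefree moduli `q_j`, classes `a_j` prime to `q_j` and factors `0 < B_j ≤ 1` the set `L` of the
vectors `v` such that for ALL `j` the vector `B_j v` is a limit vector for `F_j` and `a_j` modulo `q_j` has the
following properties:

* the closure of the interior of `L` has in `[0, T]^k` Lebesgue measure at least `c T^k`, for all `0 < T ≤ 1`;
* for all `R` and `T > 0` the interior of `L` contains vectors of `(0, T)^k` whose coordinates increase with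
  quotients larger than `R`, and vectors whose coordinates decrease with quotients larger than `R`.

Proof: Ramsey's theorem inside the starting library's theorem on the limit vectors for one normalisation
(`Pool.Agent.TH816.RR.lim_claim`), for every configuration of `K` points, and the topological and measure
theoretic part of that library.
-/

namespace Pool.Agent.Results.MP_7b323f_nt.CommonLimitVectors

open Filter MeasureTheory

/-- The record scale `f(x) = log x (log₂ x)² log₄ x / (log₃ x)²` (iterated natural logarithms). -/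
noncomputable def f (x : ℝ) : ℝ :=
  Real.log x * (Real.log (Real.log x)) ^ 2 * Real.log (Real.log (Real.log (Real.log x))) /
    (Real.log (Real.log (Real.log x))) ^ 2

/-- a scale function between the logarithm and the record scale -/
def Scale (F : ℝ → ℝ) : Prop :=
  (∀ᶠ X : ℝ in atTop, Real.log X ≤ F X ∧ F X ≤ f X) ∧
    ∀ δ : ℝ, 0 < δ → ∀ᶠ X : ℝ in atTop, ∀ y, X ≤ y → y ≤ 4 * X → |F y / F X - 1| < δ

/-- `v` is a limit vector of `k` consecutive gaps between primes of the class `a` modulo `q`, divided by `F`
(`Nat.nth Nat.Prime n` is the prime with index `n`, counted from `0`) -/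
def LimitVector (F : ℝ → ℝ) (q a k : ℕ) (v : Fin k → ℝ) : Prop :=
  ∀ ε : ℝ, 0 < ε → {n : ℕ | (∀ i : Fin (k + 1), Nat.nth Nat.Prime (n + i) ≡ a [MOD q]) ∧
    ∀ i : Fin k, |((Nat.nth Nat.Prime (n + i + 1) : ℝ) - Nat.nth Nat.Prime (n + i)) /
      F (Nat.nth Nat.Prime n) - v i| < ε}.Infinite

/-- **Common limit vectors.** -/
theorem result (k r : ℕ) (hk : 1 ≤ k) : ∃ c : ℝ, 0 < c ∧ ∀ F : Fin r → ℝ → ℝ, (∀ j, Scale (F j)) →
    ∀ q a : Fin r → ℕ, (∀ j, Squarefree (q j)) → (∀ j, (a j).Coprime (q j)) →
    ∀ B : Fin r → ℝ, (∀ j, 0 < B j ∧ B j ≤ 1) → ∀ L : Set (Fin k → ℝ),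
    L = {v : Fin k → ℝ | ∀ j, LimitVector (F j) (q j) (a j) k (fun i => B j * v i)} →
    (∀ T : ℝ, 0 < T → T ≤ 1 →
      ENNReal.ofReal (c * T ^ k) ≤ volume (closure (interior L) ∩ Set.Icc 0 (fun _ => T))) ∧
    ∀ R T : ℝ, 0 < T →
      (∃ v ∈ interior L, (∀ i, 0 < v i ∧ v i < T) ∧ ∀ i j, i < j → R * v i < v j) ∧
      (∃ v ∈ interior L, (∀ i, 0 < v i ∧ v i < T) ∧ ∀ i j, i < j → R * v j < v i) := by
  obtain ⟨c, hc, h⟩ := Pool.Agent.Q84.SV.sim_interior k r hk
  refine ⟨c, hc, fun F hF q a hq ha B hB L hL => ?_⟩
  exact h F (fun j => (hF j).1) (fun j => (hF j).2) q a hq ha B hB L hL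

end Pool.Agent.Results.MP_7b323f_nt.CommonLimitVectors
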