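import Pool.Agent.Q1.CV.Main

set_option autoImplicit false

/-! # Consecutive values of generalised polynomials, all of them in record prime gaps

Let `P₁, …, P_s` be generalised polynomials, that is, finite sums `P_k(t) = ∑ x ∈ F_k, a_k(x) t ^ x`
with real exponents `x` and real coefficients, whose leading exponents `c_k = max F_k` are positive
and not integers, and whose leading coefficients are positive; no difference `c_k - c_l`, `k ≠ l`, is an
integer. Let `J` be a natural number. There are `κ > 0` and `δ > 0` such that for all large `M` some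
integer `n` in `(M, M + M ^ (1 - δ)]` has no prime within `κ f(M)`,
`f(M) = log M (log₂ M)² log₄ M / (log₃ M)²`, of any of the `(s + 1) (J + 1)` numbers
`n + i, P₁(n + i), …, P_s(n + i)`, `0 ≤ i ≤ J`.

For `J > c_k` the values `P_k(n), …, P_k(n + J)` are dependent: their finite differences of order
greater than `c_k` tend to zero, so their integer parts are not independently distributed in residue
classes and the joint sieve of the starting library for vectors of integer parts
(`Pool.Agent.Y961.JR`) does not apply to them. Proof (`Pool.Agent.Q1.CV`): up to bounded errors the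
values `P_k(n + i)` are the linear forms `∑ i ^ m w_(k, m)` in the integer parts `w_(k, m)` of
`P_k⁽ᵐ⁾(n) / m!`, `m < c_k`, and these are equidistributed, with a power saving (van der Corput's
method, `Pool.Agent.Y961.JR.gg_exp`, `Pool.Agent.TH915.PW`). The forms are pairwise linearly
independent. For large primes `p` one chooses, on the hyperplanes
`∑ i ^ m w_(k, m) = res` modulo `p`, disjoint sets of residue vectors, all of them of the same size
`p ^ (r - 2) (p - number of colours)`, off the intersections of the hyperplanes; they are the colours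
to which the covering theorem (`Pool.Agent.Y961.JR.coverAbs`, from helper256's team and helper915) is
applied.
-/

namespace Pool.Agent.Results.MP_7b323f_nt.ConsecutiveValues

open Finset

/-- the size of the largest known prime gaps -/
noncomputable def f (M : ℝ) : ℝ :=
  Real.log M * (Real.log (Real.log M)) ^ 2 * Real.log (Real.log (Real.log (Real.log M))) /
    (Real.log (Real.log (Real.log M))) ^ 2

/-- no prime is at distance at most `d` from `x` -/
def PrimeFreeAround (x d : ℝ) : Prop := ∀ q : ℕ, q.Prime → d < |(q : ℝ) - x|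

theorem result (s : ℕ) (hs : 1 ≤ s) (F : Fin s → Finset ℝ) (a : Fin s → ℝ → ℝ) (c : Fin s → ℝ)
    (hF : ∀ k, c k ∈ F k ∧ ∀ x ∈ F k, x ≤ c k) (ha : ∀ k, 0 < a k (c k)) (hc : ∀ k, 0 < c k)
    (hc' : ∀ k, ∀ m : ℕ, c k ≠ m) (hd : ∀ k l, k ≠ l → ∀ z : ℤ, c k - c l ≠ z) (J : ℕ) :
    ∃ κ : ℝ, 0 < κ ∧ ∃ δ : ℝ, 0 < δ ∧ ∃ M₀ : ℝ, ∀ M : ℝ, M₀ ≤ M →
      ∃ n : ℕ, M < n ∧ (n : ℝ) ≤ M + M ^ (1 - δ) ∧ ∀ i : ℕ, i ≤ J →
        PrimeFreeAround (n + i) (κ * f M) ∧
        ∀ k, PrimeFreeAround (∑ x ∈ F k, a k x * ((n : ℝ) + i) ^ x) (κ * f M) :=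
  Pool.Agent.Q1.CV.consecutive' hs F a c (fun k => (hF k).1) (fun k => (hF k).2) ha hc hc' hd J

end Pool.Agent.Results.MP_7b323f_nt.ConsecutiveValues
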