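import Pool.Agent.Q120.GM.Gum5
import Pool.Agent.Q120.GM.Rec4
import Pool.Agent.Q120.GM.Exists

/-!
# The limit law of the maximal gap in the sieved models of the primes

`Q` is the level: the random set contains each `n` coprime to `Q` independently with
probability `min(1, (Q/φ(Q))/log n)`, and no other `n`. For `Q = 1` this is the model of Cramér.

For the largest gap `G(x)` following an element `≤ x`,
`G(x)/log x - (log x - log log x - log 2 - Q/(2 φ(Q)))` converges in distribution to the Gumbel law.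
-/

set_option autoImplicit false

namespace Pool.Agent.Results.MP_7b323f_nt.GumbelLaw

open Finset MeasureTheory Filter Pool.Agent.Q120.GM
open scoped Topology

/-- All gaps following the elements `≤ x` of `S` are at most `t`, that is `G(x) ≤ t`. -/
def MaxGapLe (S : Set ℕ) (x : ℕ) (t : ℝ) : Prop := ∀ a b : ℕ, a ≤ x → IsGap S a b → (b : ℝ) - a ≤ t

variable {Ω : Type*} [MeasurableSpace Ω] {μ : Measure Ω} [IsProbabilityMeasure μ] {A : Ω → Set ℕ} {Q : ℕ}

theorem infinite (hA : IsModel μ (level Q) A) (hQ : 1 ≤ Q) : ∀ᵐ ω ∂μ, ∀ N : ℕ, ∃ n, N < n ∧ n ∈ A ω := by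
  have hS : 0 < sing Q {0} := by rw [sing_zero hQ]; norm_num
  filter_upwards [gap_upper hA hQ hS one_pos le_rfl] with ω hω N
  obtain ⟨x, ⟨n, h1, h2, h3⟩, hx⟩ := (hω.and (eventually_ge_atTop N)).exists
  refine ⟨n, lt_of_le_of_lt hx h1, ?_⟩
  have := h3 0 (mem_singleton_self 0)
  rwa [add_zero] at this

/-- The events coincide up to a null set. -/
theorem event_eq (hA : IsModel μ (level Q) A) (hQ : 1 ≤ Q) (x : ℕ) {t : ℝ} (ht : 0 ≤ t) :
    μ.real {ω | MaxGapLe (A ω) x t} = μ.real (noLong A ⌊t⌋₊ (x + 1)) := by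
  refine measureReal_congr ?_
  filter_upwards [infinite hA hQ] with ω hω
  refine propext ?_
  constructor
  · intro h
    show ω ∈ noLong A ⌊t⌋₊ (x + 1)
    unfold noLong
    rw [Set.mem_iInter₂]
    intro m hm hlong
    rw [mem_range] at hm
    obtain ⟨h1, h2⟩ := hlong
    obtain ⟨n, hn1, hn2⟩ := hω m
    obtain ⟨d, hd1, _⟩ := next_exists (S := A ω) h1 hn2 hn1
    have h3 := h m d (by omega) hd1
    have h4 : d ≤ m + ⌊t⌋₊ := by
      have h5 : ((d - m : ℕ) : ℝ) ≤ t := by
        rw [Nat.cast_sub hd1.1.le]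
        exact h3
      have h6 := Nat.le_floor h5
      omega
    exact h2 d (mem_Ioc.2 ⟨hd1.1, h4⟩) hd1.2.2.1
  · intro h
    have h' : ω ∈ noLong A ⌊t⌋₊ (x + 1) := h
    unfold noLong at h'
    rw [Set.mem_iInter₂] at h'
    show MaxGapLe (A ω) x t
    intro a b ha hab
    by_contra hcon
    push Not at hcon
    refine h' a (mem_range.2 (by omega)) ⟨hab.2.1, fun n hn => ?_⟩
    rw [mem_Ioc] at hn
    refine hab.2.2.2 n hn.1 ?_
    have h1 : (⌊t⌋₊ : ℝ) ≤ t := Nat.floor_le ht
    have h2 : (n : ℝ) ≤ a + ⌊t⌋₊ := by exact_mod_cast hn.2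
    have h3 : (n : ℝ) < b := by linarith
    exact_mod_cast h3

/-- **The Gumbel law of the maximal gap.** -/
theorem result : (∀ Q : ℕ, IsModel (prodMeasure (level Q)) (level Q) (trueSet (ι := ℕ))) ∧
    ∀ (Ω : Type) (_ : MeasurableSpace Ω) (μ : Measure Ω) (_ : IsProbabilityMeasure μ) (A : Ω → Set ℕ) (Q : ℕ),
      1 ≤ Q → IsModel μ (level Q) A → ∀ u : ℝ,
        Tendsto (fun x : ℕ => μ.real {ω | MaxGapLe (A ω) x (Real.log x *
          (Real.log x - Real.log (Real.log x) - Real.log 2 - (Q : ℝ) / (2 * Nat.totient Q) + u))}) atTop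
          (𝓝 (Real.exp (-Real.exp (-u)))) := by
  refine ⟨fun Q => isModel (level Q) (level_nonneg Q) (level_le_one Q), ?_⟩
  intro Ω _ μ _ A Q hQ hA u
  refine (gumbel hA hQ u).congr' ?_
  have hl := Pool.Agent.Q120.AD.hl
  have hll : ∀ᶠ x : ℕ in atTop, 2 * Real.log (Real.log x) ^ 2 ≤ 1 * Real.log x := hl.eventually (ev_loglog_sq 2 one_pos)
  have hl1 : ∀ᶠ x : ℕ in atTop, 1 ≤ Real.log (Real.log x) := (Real.tendsto_log_atTop.comp hl).eventually_ge_atTop 1
  filter_upwards [hll, hl1, hl.eventually_ge_atTop (2 * (|cen Q u| + 1))] with x g1 g2 g3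
  have e0 : Real.log x * (Real.log x - Real.log (Real.log x) - Real.log 2 - (Q : ℝ) / (2 * Nat.totient Q) + u) =
      Real.log x * (Real.log x - Real.log (Real.log x) + cen Q u) := by
    unfold cen qq
    ring
  have e1 := neg_abs_le (cen Q u)
  have e2 : 0 ≤ |cen Q u| := abs_nonneg _
  have e3 : 2 * Real.log (Real.log x) ≤ Real.log x := by nlinarith
  have e4 : 1 ≤ Real.log (x : ℝ) := by linarith
  have e5 : 1 ≤ Real.log (x : ℝ) - Real.log (Real.log x) + cen Q u := by linarith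
  have e6 : 0 ≤ Real.log x * (Real.log x - Real.log (Real.log x) + cen Q u) := mul_nonneg (by linarith) (by linarith)
  rw [e0, event_eq hA hQ x e6]
  rfl

end Pool.Agent.Results.MP_7b323f_nt.GumbelLaw
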