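import Pool.Agent.Q130.PV.FldMain

set_option autoImplicit false

/-! # Prime gaps of record length around all coordinates of `a b + f a + g b` in finite fields

Let `R(N) = log N (log₂ N)² log₄ N / (log₃ N)²`, the order of the largest known prime gaps, `k ≥ 1`
and `0 < ε ≤ 1`. There is `κ > 0` such that for all large primes `p`, every field `K` with `p ^ k`
elements and every basis of `K` over its prime field, ARBITRARY sets `A`, `B` of elements of `K`,
ARBITRARY functions `f`, `g` from `K` to `K` and every box `J` of sides at least `p ^ ε` in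
`[0, p)^k` with `|A| |B| |J|² ≥ p ^ (3 k + ε)`: for at least `p ^ (- k - ε) |A| |B| |J|` pairs
`(a, b)` in `A × B` the vector of the `k` coordinates (least residues) of `a b + f a + g b` lies in
`J`, and no prime is within `κ R(p)` of any of these `k` integers. -/

namespace Pool.Agent.Results.MP_7b323f_nt.SetsInFiniteFields

open Finset

/-- the order of the largest known prime gaps -/
noncomputable def R (N : ℝ) : ℝ :=
  Real.log N * (Real.log (Real.log N)) ^ 2 * Real.log (Real.log (Real.log (Real.log N))) /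
    (Real.log (Real.log (Real.log N))) ^ 2

/-- no prime is within `D` of `v` -/
def Far (D : ℝ) (v : ℕ) : Prop := ∀ q : ℕ, q.Prime → D < |(q : ℝ) - v|

open scoped Classical in
theorem result (k : ℕ) (hk : 1 ≤ k) (ε : ℝ) (h0 : 0 < ε) (h1 : ε ≤ 1) :
    ∃ κ : ℝ, 0 < κ ∧ ∃ P₀ : ℕ, ∀ p : ℕ, P₀ ≤ p → ∀ [Fact p.Prime],
      ∀ (K : Type) [Field K] [Fintype K] [Algebra (ZMod p) K]
        (e : Module.Basis (Fin k) (ZMod p) K) (A B : Finset K) (f g : K → K) (u L : Fin k → ℕ),
      (∀ j, u j + L j ≤ p) → (∀ j, (p : ℝ) ^ ε ≤ L j) →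
      (p : ℝ) ^ (3 * (k : ℝ) + ε) ≤ (A.card : ℝ) * B.card * (∏ j, (L j : ℝ)) ^ 2 →
      (p : ℝ) ^ (-(k : ℝ) - ε) * (A.card * B.card * ∏ j, (L j : ℝ)) ≤
        (((A ×ˢ B).filter (fun w : K × K => ∀ j,
          (e.repr (w.1 * w.2 + f w.1 + g w.2) j).val ∈ Ico (u j) (u j + L j) ∧
          Far (κ * R p) (e.repr (w.1 * w.2 + f w.1 + g w.2) j).val)).card : ℝ) := by
  obtain ⟨κ, hκ, hp⟩ := Pool.Agent.Q130.PV.fld_main k hk ε h0 h1
  obtain ⟨P₀, hP₀⟩ := Filter.eventually_atTop.1 hp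
  refine ⟨κ, hκ, P₀, fun p hp _ K _ _ _ e A B f g u L hu hL hAB =>
    (hP₀ p hp K e A B f g u L hu hL hAB).trans ?_⟩
  have : ((A ×ˢ B).filter (fun w : K × K => ∀ j,
          (u j ≤ (e.repr (w.1 * w.2 + f w.1 + g w.2) j).val ∧
            (e.repr (w.1 * w.2 + f w.1 + g w.2) j).val < u j + L j) ∧
          ∀ q : ℕ, q.Prime → κ * Pool.Agent.W147.PS.ff p < |(q : ℝ) -
            (e.repr (w.1 * w.2 + f w.1 + g w.2) j).val|)) ⊆
      ((A ×ˢ B).filter (fun w : K × K => ∀ j,
          (e.repr (w.1 * w.2 + f w.1 + g w.2) j).val ∈ Ico (u j) (u j + L j) ∧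
          Far (κ * R p) (e.repr (w.1 * w.2 + f w.1 + g w.2) j).val)) := by
    intro w hw
    rw [mem_filter] at hw ⊢
    refine ⟨hw.1, fun j => ?_⟩
    rw [mem_Ico]
    exact hw.2 j
  exact_mod_cast card_le_card this

end Pool.Agent.Results.MP_7b323f_nt.SetsInFiniteFields
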